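import Pool.Agent.helper62.W3.SpecA
import Pool.Agent.helper50.EC.MTE
import Pool.Agent.helper82.EC.MTP

/-!
# MP_5628fe_nt, row we:MTA
-/

set_option autoImplicit false

namespace Pool.Agent.EC

open Finset ArithmeticFunction

theorem MTA_mem {Q : ℝ} {p : ℕ} (hp : p ∈ PQ Q) : 7 ≤ p ∧ p.Prime := by
  unfold PQ at hp
  rw [Finset.mem_filter, Finset.mem_Icc] at hp
  exact ⟨hp.1.1, hp.2⟩

theorem MTA_filter (Q : ℝ) (A : Finset ℕ) (hA : A ⊆ PQ Q) :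
    (PQ Q).filter (· ∣ ∏ p ∈ A, p) = A := by
  ext x
  rw [Finset.mem_filter]
  constructor
  · rintro ⟨hx, hd⟩
    obtain ⟨y, hy, hxy⟩ := ((MTA_mem hx).2.prime.dvd_finset_prod_iff _).1 hd
    have e : x = y := (Nat.prime_dvd_prime_iff_eq (MTA_mem hx).2 (MTA_mem (hA hy)).2).1 hxy
    rw [e]
    exact hy
  · intro hx
    exact ⟨hA hx, Finset.dvd_prod_of_mem _ hx⟩

/-- The weight of the subset `A`. -/
noncomputable def MTA_w (Q : ℝ) (A : Finset ℕ) : ℝ :=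
  (∏ p ∈ A, 1 / ((p : ℝ) - 1)) * ∏ p ∈ PQ Q \ A, (1 - 1 / ((p : ℝ) - 1))

theorem MTA_eg {K Q : ℝ} {l : ℕ → ℝ} (h : Adm K Q l) :
    mt Q l = ∑ A ∈ (PQ Q).powerset, MTA_w Q A * wt l (∏ p ∈ A, p) := by
  have e1 := MTP.1 K Q Q l h le_rfl
  have e2 := MTE (PQ Q) (fun p => 1 / ((p : ℝ) - 1)) (fun D => l (∏ p ∈ D, p))
  refine e1.trans (e2.trans ?_)
  unfold Eg
  refine Finset.sum_congr rfl fun A hA => ?_
  rw [Finset.mem_powerset] at hA
  have h2 := MTP.2 K Q Q l h le_rfl (∏ p ∈ A, p) (Nat.one_le_iff_ne_zero.2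
    (Finset.prod_ne_zero_iff.2 fun p hp => (MTA_mem (hA hp)).2.ne_zero))
  rw [MTA_filter Q A hA] at h2
  rw [h2]
  rfl

theorem MTA_w_nonneg (Q : ℝ) (A : Finset ℕ) (hA : A ⊆ PQ Q) : 0 ≤ MTA_w Q A := by
  unfold MTA_w
  have hg : ∀ p ∈ PQ Q, 0 ≤ 1 / ((p : ℝ) - 1) ∧ 1 / ((p : ℝ) - 1) ≤ 1 := by
    intro p hp
    have h7 : (7 : ℝ) ≤ (p : ℝ) := by exact_mod_cast (MTA_mem hp).1
    constructor
    · exact div_nonneg zero_le_one (by linarith)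
    · rw [div_le_one (by linarith)]
      linarith
  refine mul_nonneg (Finset.prod_nonneg fun p hp => (hg p (hA hp)).1) ?_
  refine Finset.prod_nonneg fun p hp => ?_
  have := (hg p (Finset.mem_sdiff.1 hp).1).2
  linarith

theorem MTA_pos {Q : ℝ} {A : Finset ℕ} (hA : A ⊆ PQ Q) : 1 ≤ ∏ p ∈ A, p :=
  Nat.one_le_iff_ne_zero.2
    (Finset.prod_ne_zero_iff.2 fun _ hp => (MTA_mem (hA hp)).2.ne_zero)

theorem MTA : MTA_stmt := by
  constructor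
  · intro K Q l h hw
    rw [MTA_eg h]
    refine Finset.sum_nonneg fun A hA => ?_
    rw [Finset.mem_powerset] at hA
    exact mul_nonneg (MTA_w_nonneg Q A hA) (hw _ (MTA_pos hA))
  · intro K Q l l' h h' hw
    rw [MTA_eg h, MTA_eg h']
    refine (Finset.abs_sum_le_sum_abs _ _).trans (Finset.sum_le_sum fun A hA => ?_)
    rw [Finset.mem_powerset] at hA
    rw [abs_mul, abs_of_nonneg (MTA_w_nonneg Q A hA)]
    exact mul_le_mul_of_nonneg_left (hw _ (MTA_pos hA)) (MTA_w_nonneg Q A hA)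

end Pool.Agent.EC
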